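import Pool.Agent.Helper69.SW.St

/-!
# Project SW (MP_65faa7), module Rat: the maximum principle for a quotient
-/

set_option autoImplicit false

open scoped BigOperators ENNReal Topology
open Pool.LE Pool.NL Pool.CL Pool.CB Filter

namespace Pool.SW

namespace RatM

/-- the maximum of a quotient over the positivity set -/
theorem exists_max {α : Type*} (L : Finset α) (u h : α → ℝ) (x : α) (hx : x ∈ L) (hux : 0 < u x) :
    ∃ x₀ ∈ L, 0 < u x₀ ∧ ∀ y ∈ L, 0 < u y → u y / h y ≤ u x₀ / h x₀ := by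
  classical
  obtain ⟨x₀, hx₀, hmax⟩ := Finset.exists_max_image (L.filter fun y => 0 < u y)
    (fun y => u y / h y) ⟨x, Finset.mem_filter.2 ⟨hx, hux⟩⟩
  rw [Finset.mem_filter] at hx₀
  exact ⟨x₀, hx₀.1, hx₀.2, fun y hy huy => hmax y (Finset.mem_filter.2 ⟨hy, huy⟩)⟩

end RatM

/-- MODULE Rat -/
theorem hRat (_hBox : StBox) : StRat := by
  intro d L S u h pu ph m hm hu hh hout hpos hS hineq x
  by_contra hcon
  rw [not_le] at hcon
  have hux : 0 < u x := lt_of_le_of_lt (mul_nonneg hm (hh x)) hcon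
  have hxL : x ∈ L := by
    by_contra hx
    rw [hout x hx] at hux
    exact lt_irrefl _ hux
  obtain ⟨x₀, hx₀, hux₀, hmax⟩ := RatM.exists_max L u h x hxL hux
  have hhx : 0 < h x := hpos x hxL hux
  have hhx₀ : 0 < h x₀ := hpos x₀ hx₀ hux₀
  set m' : ℝ := u x₀ / h x₀ with hm'
  have hmm' : m < m' := by
    refine lt_of_lt_of_le ?_ (hmax x hxL hux)
    rwa [lt_div_iff₀ hhx]
  have hm'0 : 0 ≤ m' := hm.trans hmm'.le
  have heq : u x₀ = m' * h x₀ := by
    rw [hm', div_mul_cancel₀ _ hhx₀.ne']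
  have hle : ∀ y, u y ≤ m' * h y := by
    intro y
    rcases (hu y).eq_or_lt with h0 | h0
    · rw [← h0]
      exact mul_nonneg hm'0 (hh y)
    · have hyL : y ∈ L := by
        by_contra hy
        rw [hout y hy] at h0
        exact lt_irrefl _ h0
      have := hmax y hyL h0
      rwa [div_le_iff₀ (hpos y hyL h0)] at this
  have hx₀S : x₀ ∉ S := by
    intro hx
    have h1 := hS x₀ hx₀ hx
    rw [heq] at h1
    have h2 := (mul_lt_mul_of_pos_right hmm' hhx₀)
    linarith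
  obtain ⟨h1, h2, h3⟩ := hineq x₀ hx₀ hx₀S hux₀
  have h4 : m' * AL h x₀ ≤ AL u x₀ := by
    unfold AL
    have h5 : ∑ b ∈ nb x₀, u b ≤ ∑ b ∈ nb x₀, m' * h b := Finset.sum_le_sum fun b _ => hle b
    rw [← Finset.mul_sum] at h5
    rw [heq]
    have h6 : m' * (2 * (d : ℝ) * h x₀ - ∑ b ∈ nb x₀, h b) =
      2 * (d : ℝ) * (m' * h x₀) - m' * ∑ b ∈ nb x₀, h b := by ring
    rw [h6]
    linarith
  have h5 : m' * (ph x₀ * h x₀) ≤ m' * AL h x₀ := mul_le_mul_of_nonneg_left h2 hm'0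
  have h6 : m' * (ph x₀ * h x₀) = ph x₀ * u x₀ := by rw [heq]; ring
  have h7 : pu x₀ * u x₀ < ph x₀ * u x₀ := mul_lt_mul_of_pos_right h3 hux₀
  linarith

end Pool.SW
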